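import Pool.Agent.Helper8.UN.Stmts

set_option autoImplicit false

open Finset

namespace Pool.Agent.Helper8.UN

theorem qsw_mem {n : ℕ} {E : Finset (Finset (Fin n))} {W : Finset (Fin n)} {m : ℕ}
    {f : Fin n → ℕ} : f ∈ SS E W m ↔ ((∀ v, v ∈ W → f v ∈ Finset.Icc 1 m) ∧
      (∀ v, v ∉ W → f v = 0) ∧ Prp E W f) ∧ ∀ i ∈ Finset.Icc 1 m, ∃ v ∈ W, f v = i := by
  classical
  unfold SS CC
  simp only [Finset.mem_filter, Fintype.mem_piFinset]
  refine and_congr_left fun _ => ⟨fun h => ⟨fun v hv => ?_, fun v hv => ?_, h.2⟩,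
    fun h => ⟨fun v => ?_, h.2.2⟩⟩
  · have := h.1 v; rwa [if_pos hv] at this
  · have := h.1 v; rw [if_neg hv] at this; simpa using this
  · by_cases hv : v ∈ W
    · rw [if_pos hv]; exact h.1 v hv
    · rw [if_neg hv]; simpa using h.2.1 v hv

open scoped Classical in
/-- class of `y` -/
noncomputable def qsw_C {n : ℕ} (W : Finset (Fin n)) (f : Fin n → ℕ) (y : Fin n) :
    Finset (Fin n) := W.filter (fun z => f z = f y)

open scoped Classical in
/-- colourings whose class of `y` has `s` elements -/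
noncomputable def qsw_N {n : ℕ} (E : Finset (Finset (Fin n))) (W : Finset (Fin n)) (m : ℕ)
    (y : Fin n) (s : ℕ) : Finset (Fin n → ℕ) :=
  (SS E W m).filter (fun f => (qsw_C W f y).card = s)

open scoped Classical in
/-- vertices which can be moved to the class of `y` -/
noncomputable def qsw_G {n : ℕ} (E : Finset (Finset (Fin n))) (W : Finset (Fin n))
    (f : Fin n → ℕ) (y : Fin n) : Finset (Fin n) :=
  W.filter (fun z => z ∉ qsw_C W f y ∧ (∃ z' ∈ W, z' ≠ z ∧ f z' = f z) ∧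
    ∀ e ∈ E, z ∈ e → ¬ e ⊆ insert z (qsw_C W f y))

theorem qsw_alone {n : ℕ} {E : Finset (Finset (Fin n))} {W : Finset (Fin n)} {m : ℕ}
    {f : Fin n → ℕ} (hf : f ∈ SS E W m) :
    (W.filter (fun z => ∀ z' ∈ W, z' ≠ z → f z' ≠ f z)).card ≤ m := by
  have h := (qsw_mem.1 hf).1.1
  have : (W.filter (fun z => ∀ z' ∈ W, z' ≠ z → f z' ≠ f z)).card ≤ (Finset.Icc 1 m).card := by
    refine Finset.card_le_card_of_injOn f (fun z hz => ?_) (fun z hz z' hz' he => ?_)
    · exact h z (Finset.mem_filter.1 hz).1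
    · by_contra hne
      exact (Finset.mem_filter.1 hz').2 z (Finset.mem_filter.1 hz).1 hne he
  simpa using this

theorem qsw_bad {n D0 : ℕ} {E : Finset (Finset (Fin n))} {W C : Finset (Fin n)}
    (h2 : Two E) (hd : Deg E D0 4) (hC : C.card ≤ 2) :
    (W.filter (fun z => z ∉ C ∧ ∃ e ∈ E, z ∈ e ∧ e ⊆ insert z C)).card ≤ 2 * D0 := by
  classical
  have hB : (C.biUnion (fun c => E.filter (fun e => c ∈ e ∧ e.card < 4))).card ≤ 2 * D0 := by
    refine (Finset.card_biUnion_le).trans ?_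
    refine (Finset.sum_le_sum (fun c _ => hd c)).trans ?_
    rw [Finset.sum_const, smul_eq_mul]
    exact Nat.mul_le_mul_right _ hC
  refine le_trans ?_ hB
  have hex : ∀ z : Fin n, ∃ e : Finset (Fin n),
      z ∈ W.filter (fun z => z ∉ C ∧ ∃ e ∈ E, z ∈ e ∧ e ⊆ insert z C) →
      e ∈ E ∧ z ∈ e ∧ e ⊆ insert z C := by
    intro z
    by_cases hz : z ∈ W.filter (fun z => z ∉ C ∧ ∃ e ∈ E, z ∈ e ∧ e ⊆ insert z C)
    · obtain ⟨_, _, e, he⟩ := Finset.mem_filter.1 hz
      exact ⟨e, fun _ => he⟩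
    · exact ⟨∅, fun h => absurd h hz⟩
  choose e he using hex
  refine Finset.card_le_card_of_injOn e (fun z hz => ?_) (fun z hz z' hz' hee => ?_)
  · obtain ⟨h1, h2', h3⟩ := he z hz
    have hzC := (Finset.mem_filter.1 hz).2.1
    have hc : 1 < (e z).card := h2 _ h1
    obtain ⟨c, hc1, hc2⟩ := Finset.exists_mem_ne hc z
    have hcC : c ∈ C := by
      rcases Finset.mem_insert.1 (h3 hc1) with h | h
      · exact absurd h hc2
      · exact h
    refine Finset.mem_coe.2 (Finset.mem_biUnion.2 ⟨c, hcC, Finset.mem_filter.2 ⟨h1, hc1, ?_⟩⟩)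
    have := Finset.card_le_card h3
    have h4 := Finset.card_insert_le z C
    omega
  · obtain ⟨h1, h2', h3⟩ := he z hz
    obtain ⟨h1', h2'', h3'⟩ := he z' hz'
    rw [← hee] at h3' h2''
    rcases Finset.mem_insert.1 (h3 h2'') with h | h
    · exact h.symm
    · exact absurd h (Finset.mem_filter.1 hz').2.1

theorem qsw_Gcard {n D0 m : ℕ} {E : Finset (Finset (Fin n))} {W : Finset (Fin n)} {y : Fin n}
    {f : Fin n → ℕ} (h2 : Two E) (hd : Deg E D0 4) (hf : f ∈ SS E W m)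
    (hC : (qsw_C W f y).card ≤ 2) : W.card - (m + 2 * D0 + 2) ≤ (qsw_G E W f y).card := by
  classical
  have hsub : W ⊆ qsw_G E W f y ∪ (qsw_C W f y ∪
      (W.filter (fun z => ∀ z' ∈ W, z' ≠ z → f z' ≠ f z) ∪
      W.filter (fun z => z ∉ qsw_C W f y ∧ ∃ e ∈ E, z ∈ e ∧ e ⊆ insert z (qsw_C W f y)))) := by
    intro z hz
    by_cases h1 : z ∈ qsw_C W f y
    · exact Finset.mem_union_right _ (Finset.mem_union_left _ h1)
    by_cases h3 : ∀ z' ∈ W, z' ≠ z → f z' ≠ f z
    · exact Finset.mem_union_right _ (Finset.mem_union_right _ (Finset.mem_union_left _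
        (Finset.mem_filter.2 ⟨hz, h3⟩)))
    by_cases h4 : ∃ e ∈ E, z ∈ e ∧ e ⊆ insert z (qsw_C W f y)
    · exact Finset.mem_union_right _ (Finset.mem_union_right _ (Finset.mem_union_right _
        (Finset.mem_filter.2 ⟨hz, h1, h4⟩)))
    refine Finset.mem_union_left _ (Finset.mem_filter.2 ⟨hz, h1, ?_, ?_⟩)
    · by_contra h5
      exact h3 (fun z' hz' hne he => h5 ⟨z', hz', hne, he⟩)
    · intro e he hze hsub
      exact h4 ⟨e, he, hze, hsub⟩
  have c1 := Finset.card_le_card hsub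
  have c2 := Finset.card_union_le (qsw_G E W f y) (qsw_C W f y ∪
      (W.filter (fun z => ∀ z' ∈ W, z' ≠ z → f z' ≠ f z) ∪
      W.filter (fun z => z ∉ qsw_C W f y ∧ ∃ e ∈ E, z ∈ e ∧ e ⊆ insert z (qsw_C W f y))))
  have c3 := Finset.card_union_le (qsw_C W f y)
      (W.filter (fun z => ∀ z' ∈ W, z' ≠ z → f z' ≠ f z) ∪
      W.filter (fun z => z ∉ qsw_C W f y ∧ ∃ e ∈ E, z ∈ e ∧ e ⊆ insert z (qsw_C W f y)))
  have c4 := Finset.card_union_le (W.filter (fun z => ∀ z' ∈ W, z' ≠ z → f z' ≠ f z))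
      (W.filter (fun z => z ∉ qsw_C W f y ∧ ∃ e ∈ E, z ∈ e ∧ e ⊆ insert z (qsw_C W f y)))
  have c5 := qsw_alone hf
  have c6 := qsw_bad (W := W) h2 hd hC
  omega

theorem qsw_move {n m : ℕ} {E : Finset (Finset (Fin n))} {W : Finset (Fin n)} {y z : Fin n}
    {f : Fin n → ℕ} (hy : y ∈ W) (hf : f ∈ SS E W m) (hz : z ∈ qsw_G E W f y) :
    Function.update f z (f y) ∈ SS E W m ∧
      qsw_C W (Function.update f z (f y)) y = insert z (qsw_C W f y) ∧ z ≠ y ∧ z ∈ W ∧
      z ∉ qsw_C W f y := by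
  classical
  obtain ⟨hzW, hzC, ⟨z', hz'W, hz'ne, hz'f⟩, hzE⟩ := Finset.mem_filter.1 hz
  have hyC : y ∈ qsw_C W f y := Finset.mem_filter.2 ⟨hy, rfl⟩
  have hzy : z ≠ y := fun h => hzC (h ▸ hyC)
  obtain ⟨⟨h1, h0, hp⟩, hs⟩ := qsw_mem.1 hf
  have hcl : ∀ u ∈ W, u ≠ z → f u = f y → u ∈ qsw_C W f y := fun u hu _ h =>
    Finset.mem_filter.2 ⟨hu, h⟩
  refine ⟨qsw_mem.2 ⟨⟨fun v hv => ?_, fun v hv => ?_, fun e he heW => ?_⟩, fun i hi => ?_⟩,
    ?_, hzy, hzW, hzC⟩
  · by_cases hvz : v = z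
    · rw [hvz, Function.update_self]; exact h1 y hy
    · rw [Function.update_of_ne hvz]; exact h1 v hv
  · have hvz : v ≠ z := fun h => hv (h ▸ hzW)
    rw [Function.update_of_ne hvz]; exact h0 v hv
  · by_cases hze : z ∈ e
    · by_contra hcon
      push Not at hcon
      refine hzE e he hze (fun u hu => ?_)
      by_cases huz : u = z
      · exact Finset.mem_insert.2 (Or.inl huz)
      · have := hcon u hu z hze
        rw [Function.update_of_ne huz, Function.update_self] at this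
        exact Finset.mem_insert.2 (Or.inr (hcl u (heW hu) huz this))
    · obtain ⟨u, hu, v, hv, huv⟩ := hp e he heW
      refine ⟨u, hu, v, hv, ?_⟩
      have huz : u ≠ z := fun h => hze (by rw [← h]; exact hu)
      have hvz : v ≠ z := fun h => hze (by rw [← h]; exact hv)
      rw [Function.update_of_ne huz, Function.update_of_ne hvz]
      exact huv
  · obtain ⟨v, hv, hvi⟩ := hs i hi
    by_cases hvz : v = z
    · exact ⟨z', hz'W, by rw [Function.update_of_ne hz'ne, hz'f, ← hvz, hvi]⟩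
    · exact ⟨v, hv, by rw [Function.update_of_ne hvz, hvi]⟩
  · ext u
    rw [Finset.mem_insert]
    unfold qsw_C
    rw [Finset.mem_filter, Finset.mem_filter, Function.update_of_ne (Ne.symm hzy)]
    by_cases huz : u = z
    · rw [huz, Function.update_self]
      exact ⟨fun _ => Or.inl rfl, fun _ => ⟨hzW, rfl⟩⟩
    · rw [Function.update_of_ne huz]
      exact ⟨fun h => Or.inr h, fun h => h.resolve_left huz⟩

theorem qsw_step {n D0 m s : ℕ} {E : Finset (Finset (Fin n))} {W : Finset (Fin n)} {y : Fin n}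
    (h2 : Two E) (hd : Deg E D0 4) (hy : y ∈ W) (hs : s ≤ 2) :
    (qsw_N E W m y s).card * (W.card - (m + 2 * D0 + 2)) ≤
      (qsw_N E W m y (s + 1)).card * (s * m) := by
  classical
  have e1 : (qsw_N E W m y s).card * (W.card - (m + 2 * D0 + 2)) ≤
      ((qsw_N E W m y s).sigma (fun f => qsw_G E W f y)).card := by
    rw [Finset.card_sigma, ← smul_eq_mul, ← Finset.sum_const]
    refine Finset.sum_le_sum fun f hf => ?_
    obtain ⟨hf1, hf2⟩ := Finset.mem_filter.1 hf
    exact qsw_Gcard h2 hd hf1 (hf2 ▸ hs)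
  have e2 : ((qsw_N E W m y (s + 1)).sigma
      (fun g => ((qsw_C W g y).erase y) ×ˢ (Finset.Icc 1 m))).card =
      (qsw_N E W m y (s + 1)).card * (s * m) := by
    rw [Finset.card_sigma, ← smul_eq_mul, ← Finset.sum_const]
    refine Finset.sum_congr rfl fun g hg => ?_
    obtain ⟨hg1, hg2⟩ := Finset.mem_filter.1 hg
    have hyC : y ∈ qsw_C W g y := Finset.mem_filter.2 ⟨hy, rfl⟩
    rw [Finset.card_product, Finset.card_erase_of_mem hyC, hg2, Nat.card_Icc]
    simp
  rw [← e2]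
  refine e1.trans ?_
  refine Finset.card_le_card_of_injOn
    (fun p => (⟨Function.update p.1 p.2 (p.1 y), (p.2, p.1 p.2)⟩ :
      (_ : Fin n → ℕ) × (Fin n × ℕ))) (fun p hp => ?_) (fun p hp q hq hpq => ?_)
  · obtain ⟨hp1, hp2⟩ := Finset.mem_sigma.1 hp
    obtain ⟨hf1, hf2⟩ := Finset.mem_filter.1 hp1
    obtain ⟨k1, k2, k3, k4, k5⟩ := qsw_move hy hf1 hp2
    refine Finset.mem_coe.2 (Finset.mem_sigma.2 ⟨Finset.mem_filter.2 ⟨k1, ?_⟩,
      Finset.mem_product.2 ⟨Finset.mem_erase.2 ⟨k3, ?_⟩, ?_⟩⟩)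
    · rw [k2, Finset.card_insert_of_notMem k5, hf2]
    · show p.2 ∈ qsw_C W (Function.update p.1 p.2 (p.1 y)) y
      rw [k2]; exact Finset.mem_insert_self _ _
    · exact (qsw_mem.1 hf1).1.1 _ k4
  · obtain ⟨f, z⟩ := p
    obtain ⟨g, w⟩ := q
    simp only [Sigma.mk.injEq, heq_eq_eq, Prod.mk.injEq] at hpq
    obtain ⟨hu, hzw, hfg⟩ := hpq
    subst hzw
    have : f = g := by
      have a1 : Function.update (Function.update f z (f y)) z (f z) = f := by
        rw [Function.update_idem, Function.update_eq_self]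
      have a2 : Function.update (Function.update g z (g y)) z (g z) = g := by
        rw [Function.update_idem, Function.update_eq_self]
      rw [← a1, ← a2, hu, hfg]
    subst this
    rfl

open scoped Classical in
theorem st_QSW (_h1 : ST_UPS) : ST_QSW := by
  intro n D0 m E W y h2 hd hy
  have hN1 : (SS E W m).filter (fun f => ∀ z ∈ W, z ≠ y → f z ≠ f y) = qsw_N E W m y 1 := by
    ext f
    unfold qsw_N
    rw [Finset.mem_filter, Finset.mem_filter]
    refine and_congr_right fun hf => ⟨fun h => ?_, fun h z hz hzy he => ?_⟩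
    · rw [Finset.card_eq_one]
      refine ⟨y, ?_⟩
      ext z
      rw [Finset.mem_singleton]
      refine ⟨fun hz => ?_, fun hz => ?_⟩
      · by_contra hne
        exact h z (Finset.mem_filter.1 hz).1 hne (Finset.mem_filter.1 hz).2
      · rw [hz]; exact Finset.mem_filter.2 ⟨hy, rfl⟩
    · obtain ⟨a, ha⟩ := Finset.card_eq_one.1 h
      have h3 : z ∈ qsw_C W f y := Finset.mem_filter.2 ⟨hz, he⟩
      have h4 : y ∈ qsw_C W f y := Finset.mem_filter.2 ⟨hy, rfl⟩
      rw [ha, Finset.mem_singleton] at h3 h4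
      exact hzy (h3.trans h4.symm)
  rw [hN1]
  have s1 := qsw_step (m := m) (s := 1) h2 hd hy (by norm_num)
  have s2 := qsw_step (m := m) (s := 2) h2 hd hy le_rfl
  have s3 : (qsw_N E W m y 3).card ≤ AA E W m := Finset.card_le_card (Finset.filter_subset _ _)
  norm_num at s1 s2
  calc (qsw_N E W m y 1).card * (W.card - (m + 2 * D0 + 2)) ^ 2
      = ((qsw_N E W m y 1).card * (W.card - (m + 2 * D0 + 2))) *
        (W.card - (m + 2 * D0 + 2)) := by ring
    _ ≤ ((qsw_N E W m y 2).card * m) * (W.card - (m + 2 * D0 + 2)) :=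
        Nat.mul_le_mul_right _ s1
    _ = ((qsw_N E W m y 2).card * (W.card - (m + 2 * D0 + 2))) * m := by ring
    _ ≤ ((qsw_N E W m y 3).card * (2 * m)) * m := Nat.mul_le_mul_right _ s2
    _ ≤ (AA E W m * (2 * m)) * m :=
        Nat.mul_le_mul_right _ (Nat.mul_le_mul_right _ s3)
    _ = 2 * m ^ 2 * AA E W m := by ring

end Pool.Agent.Helper8.UN
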